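import Pool.Agent.MP_aa1ef7_ag.G.Main

namespace Pool.Agent.Results.MP_aa1ef7_ag.Generic

open Pool.Agent.MP_aa1ef7_ag.H40

/-- For every `d ≥ 2` there is a nonzero polynomial `Φ` in the `3 (d + 1)` coefficients of
`d + 1` lines such that, whenever `Φ` does not vanish, the lines are in general position, `df`
(`f` their product) defines a point of the space of foliations, and every irreducible component
of the center locus through this point is the closure of a logarithmic family
`𝓛(d₁, …, d_s)` with `∑ d_i = d + 1`. -/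
theorem result (d : ℕ) (hd : 2 ≤ d) :
    ∃ Φ : MvPolynomial (Fin (d + 1) × Fin 3) ℂ, Φ ≠ 0 ∧
      ∀ l : Fin (d + 1) → ℂ × ℂ × ℂ,
        MvPolynomial.eval (fun k => ![(l k.1).1, (l k.1).2.1, (l k.1).2.2] k.2) Φ ≠ 0 →
        GenPos l ∧ (∃ F₀ : Fol d, IsPt F₀ (dform (∏ i, lin (l i)))) ∧
        ∀ F₀ : Fol d, IsPt F₀ (dform (∏ i, lin (l i))) →
          ∀ C, IsComponent (zcl (Cent d)) C → F₀ ∈ C →
            ∃ (s : ℕ) (D : Fin s → ℕ), (∀ i, 0 < D i) ∧ ∑ i, D i = d + 1 ∧
              C = zcl (LogFam d D) :=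
  Pool.Agent.MP_aa1ef7_ag.H20.openS d hd

end Pool.Agent.Results.MP_aa1ef7_ag.Generic
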