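import Pool.Agent.MP_aa1ef7_ag.H40.Main

namespace Pool.Agent.Results.MP_aa1ef7_ag.Reversible

open Pool.Agent.MP_aa1ef7_ag.H40

/-- For every `d ≥ 3`, the lines `(d - p) x + p y - p (d - p)`, `p = 0, …, d`, are in general
position, and the point of `df` (`f` their product) lies on an irreducible component of the center
locus that is not contained in the Zariski closure of any logarithmic family
`𝓛(d₁, …, d_s)` with `∑ d_i = d + 1`. This holds for the Zariski closure of the set of foliations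
with a center, and for any set `M` containing that set. -/
theorem result (d : ℕ) (hd : 3 ≤ d) :
    ∃ l : Fin (d + 1) → ℂ × ℂ × ℂ,
      (∀ p, l p = ((d : ℂ) - (p : ℕ), ((p : ℕ) : ℂ), -((p : ℕ) * ((d : ℂ) - (p : ℕ))))) ∧
      GenPos l ∧
      ∃ F₀ : Fol d, IsPt F₀ (dform (∏ i, lin (l i))) ∧
        (∃ C, IsComponent (zcl (Cent d)) C ∧ F₀ ∈ C ∧
          ∀ (s : ℕ) (D : Fin s → ℕ), (∀ i, 0 < D i) → ∑ i, D i = d + 1 →
            ¬ C ⊆ zcl (LogFam d D)) ∧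
        ∀ M : Set (Fol d), Cent d ⊆ M → ∃ C, IsComponent M C ∧ F₀ ∈ C ∧
          ∀ (s : ℕ) (D : Fin s → ℕ), (∀ i, 0 < D i) → ∑ i, D i = d + 1 →
            ¬ C ⊆ zcl (LogFam d D) := by
  obtain ⟨F₀, h1, h2⟩ := main hd
  have h3 : ∀ M : Set (Fol d), Cent d ⊆ M → ∃ C, IsComponent M C ∧ F₀ ∈ C ∧
      ∀ (s : ℕ) (D : Fin s → ℕ), (∀ i, 0 < D i) → ∑ i, D i = d + 1 →
        ¬ C ⊆ zcl (LogFam d D) := fun M hM => by
    obtain ⟨C, k1, k2, k3⟩ := h2 M hM
    exact ⟨C, k1, k2, fun s D _ hD => k3 s D hD⟩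
  exact ⟨arr d, fun _ => rfl, arr_genPos (by omega), F₀, h1,
    h3 _ fun F hF Z hZ => hZ.2 hF, h3⟩

end Pool.Agent.Results.MP_aa1ef7_ag.Reversible
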